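import Pool.Agent.W805.LR.Stm3
import Pool.Agent.W646.LR.PC
import Pool.Agent.W333.LR.PA

/-!
# No long cycles at small times (part SM of the project LR)
-/

set_option autoImplicit false
set_option linter.all false

namespace Pool.Agent.W349.LR.SM

open Finset Equiv Pool.Agent.W805.LR

noncomputable section

variable {V : Type} [Fintype V] [DecidableEq V]

/-- product of the transpositions of a sequence of pairs -/
def PE {m : ℕ} (E : Fin m → V × V) : Perm V := (List.ofFn fun i => swap (E i).1 (E i).2).prod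

/-- weight of a sequence of pairs -/
def WE (J : V → V → ℝ) {m : ℕ} (E : Fin m → V × V) : ℝ := ∏ i, J (E i).1 (E i).2 / 2

theorem PE_succ {m : ℕ} (E : Fin (m + 1) → V × V) :
    PE E = swap (E 0).1 (E 0).2 * PE (Fin.tail E) := by
  unfold PE
  rw [List.ofFn_succ, List.prod_cons]
  rfl

theorem WE_nonneg {J : V → V → ℝ} (hJ : ∀ x y, 0 ≤ J x y) {m : ℕ} (E : Fin m → V × V) :
    0 ≤ WE J E := Finset.prod_nonneg fun i _ => div_nonneg (hJ _ _) (by norm_num)

theorem ringSum_eq (J : V → V → ℝ) (m : ℕ) : ∀ g : Perm V,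
    ringSum J m g = ∑ E : Fin m → V × V, WE J E * (if PE E = g then 1 else 0) := by
  classical
  induction m with
  | zero =>
    intro g
    rw [Fintype.sum_unique]
    simp [ringSum, WE, PE, eq_comm]
  | succ m ih =>
    intro g
    rw [ringSum]
    rw [← (Fin.consEquiv (fun _ : Fin (m + 1) => V × V)).sum_comp, Fintype.sum_prod_type,
      Fintype.sum_prod_type]
    refine Finset.sum_congr rfl fun x _ => Finset.sum_congr rfl fun y _ => ?_
    rw [ih, Finset.mul_sum]
    refine Finset.sum_congr rfl fun E _ => ?_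
    have h1 : WE J ((Fin.consEquiv (fun _ : Fin (m + 1) => V × V)) ((x, y), E)) =
        J x y / 2 * WE J E := by
      unfold WE
      rw [Fin.prod_univ_succ]
      rfl
    have h2 : PE ((Fin.consEquiv (fun _ : Fin (m + 1) => V × V)) ((x, y), E)) =
        swap x y * PE E := by
      rw [PE_succ]
      rfl
    rw [h1, h2]
    have h3 : (PE E = swap x y * g) ↔ (swap x y * PE E = g) := by
      constructor
      · intro h; rw [h, swap_mul_self_mul]
      · intro h; rw [← h, swap_mul_self_mul]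
    simp only [h3]
    ring

theorem sum_ring (J : V → V → ℝ) (m : ℕ) (F : Perm V → ℝ) :
    ∑ g, ringSum J m g * F g = ∑ E : Fin m → V × V, WE J E * F (PE E) := by
  classical
  simp only [ringSum_eq, Finset.sum_mul]
  rw [Finset.sum_comm]
  refine Finset.sum_congr rfl fun E _ => ?_
  simp [mul_assoc]

/-- total rate -/
def Q (J : V → V → ℝ) : ℝ := ∑ e : V × V, J e.1 e.2 / 2

theorem sum_WE (J : V → V → ℝ) (m : ℕ) : ∑ E : Fin m → V × V, WE J E = Q J ^ m := by
  unfold Q WE
  rw [Fintype.sum_pow]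

theorem ringSum_nonneg {J : V → V → ℝ} (hJ : ∀ x y, 0 ≤ J x y) (m : ℕ) (g : Perm V) :
    0 ≤ ringSum J m g := by
  rw [ringSum_eq]
  exact Finset.sum_nonneg fun E _ => mul_nonneg (WE_nonneg hJ E) (by split_ifs <;> norm_num)

theorem ringSum_le {J : V → V → ℝ} (hJ : ∀ x y, 0 ≤ J x y) (m : ℕ) (g : Perm V) :
    ringSum J m g ≤ Q J ^ m := by
  rw [ringSum_eq, ← sum_WE]
  refine Finset.sum_le_sum fun E _ => ?_
  have := WE_nonneg hJ E
  split_ifs <;> simp [this]

theorem summ {J : V → V → ℝ} (hJ : ∀ x y, 0 ≤ J x y) (t : ℝ) (ht : 0 ≤ t) (a : ℕ → ℝ) (C : ℝ)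
    (h0 : ∀ m, 0 ≤ a m) (h1 : ∀ m, a m ≤ C * Q J ^ m) :
    Summable fun m : ℕ => t ^ m / (m.factorial : ℝ) * a m := by
  have h2 := (Real.summable_pow_div_factorial (t * Q J)).mul_left C
  refine Summable.of_nonneg_of_le (fun m => mul_nonneg (by positivity) (h0 m)) (fun m => ?_) h2
  calc t ^ m / (m.factorial : ℝ) * a m ≤ t ^ m / (m.factorial : ℝ) * (C * Q J ^ m) := by
        have := h1 m
        gcongr
    _ = C * ((t * Q J) ^ m / (m.factorial : ℝ)) := by rw [mul_pow]; ring

theorem sum_stir {J : V → V → ℝ} (hJ : ∀ x y, 0 ≤ J x y) (t : ℝ) (ht : 0 ≤ t) (F : Perm V → ℝ) :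
    ∑ g, stirMass J t g * F g =
      ∑' m : ℕ, t ^ m / (m.factorial : ℝ) * ∑ E : Fin m → V × V, WE J E * F (PE E) := by
  have hs : ∀ g : Perm V, Summable fun m : ℕ => t ^ m / (m.factorial : ℝ) * ringSum J m g :=
    fun g => summ hJ t ht _ 1 (fun m => ringSum_nonneg hJ m g)
      (fun m => by rw [one_mul]; exact ringSum_le hJ m g)
  unfold stirMass
  simp only [← tsum_mul_right]
  rw [← Summable.tsum_finsetSum (fun g _ => (hs g).mul_right (F g))]
  congr 1
  funext m
  rw [← sum_ring, Finset.mul_sum]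
  exact Finset.sum_congr rfl fun g _ => by ring

/-! ### reachability -/

/-- one step along a pair of the sequence -/
def Stp {m : ℕ} (E : Fin m → V × V) (a b : V) : Prop := ∃ i, E i = (a, b) ∨ E i = (b, a)

/-- reachability along the pairs of the sequence -/
def Rch {m : ℕ} (E : Fin m → V × V) : V → V → Prop := Relation.ReflTransGen (Stp E)

theorem rch_tail {m : ℕ} (E : Fin (m + 1) → V × V) {a b : V} (h : Rch (Fin.tail E) a b) :
    Rch E a b := by
  refine Relation.ReflTransGen.mono ?_ _ _ h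
  rintro u w ⟨i, hi⟩
  exact ⟨i.succ, hi⟩

theorem rch_PE {m : ℕ} : ∀ (E : Fin m → V × V) (a : V), Rch E a (PE E a) := by
  induction m with
  | zero => intro E a; exact Relation.ReflTransGen.refl
  | succ m ih =>
    intro E a
    rw [PE_succ, Perm.mul_apply]
    have h1 := rch_tail E (ih (Fin.tail E) a)
    rw [swap_apply_def]
    split_ifs with h2 h3
    · exact h1.tail ⟨0, Or.inl (by rw [h2])⟩
    · exact h1.tail ⟨0, Or.inr (by rw [h3])⟩
    · exact h1

theorem rch_pow {m : ℕ} (E : Fin m → V × V) (n : ℕ) (a : V) : Rch E a ((PE E ^ n) a) := by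
  induction n with
  | zero => exact Relation.ReflTransGen.refl
  | succ n ih =>
    rw [pow_succ', Perm.mul_apply]
    exact Relation.ReflTransGen.trans ih (rch_PE E _)

theorem len_le {m : ℕ} (E : Fin m → V × V) (x : V) : len (PE E) x ≤ cnt (Rch E x) := by
  classical
  unfold len cnt
  refine Finset.sum_le_sum fun w _ => ?_
  by_cases h : (PE E).SameCycle x w
  · obtain ⟨n, hn⟩ := Pool.Agent.W333.LR.exists_nat_pow h
    have h2 : Rch E x w := by rw [← hn]; exact rch_pow E n x
    rw [if_pos h, if_pos h2]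
  · rw [if_neg h]
    split_ifs <;> norm_num

theorem cnt_nonneg (P : V → Prop) : 0 ≤ cnt P := by
  classical
  exact Finset.sum_nonneg fun v _ => by split_ifs <;> norm_num

theorem cnt_le (P : V → Prop) : cnt P ≤ Fintype.card V := by
  classical
  unfold cnt
  calc _ ≤ ∑ v : V, (1 : ℝ) := Finset.sum_le_sum fun v _ => by split_ifs <;> norm_num
    _ = _ := by simp

/-- a path that leaves `x` and never returns -/
theorem rch_first {m : ℕ} (E : Fin m → V × V) (x z : V) (hxz : z ≠ x) (h : Rch E x z) :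
    ∃ (i : Fin m) (y : V), (E i = (x, y) ∨ E i = (y, x)) ∧
      Relation.ReflTransGen (fun a b => Stp E a b ∧ a ≠ x ∧ b ≠ x) y z := by
  have key : ∀ a, Rch E a z →
      (a ≠ x ∧ Relation.ReflTransGen (fun a b => Stp E a b ∧ a ≠ x ∧ b ≠ x) a z) ∨
      ∃ (i : Fin m) (y : V), (E i = (x, y) ∨ E i = (y, x)) ∧
        Relation.ReflTransGen (fun a b => Stp E a b ∧ a ≠ x ∧ b ≠ x) y z := by
    intro a ha
    induction ha using Relation.ReflTransGen.head_induction_on with
    | refl => exact Or.inl ⟨hxz, Relation.ReflTransGen.refl⟩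
    | @head a b hab _ ih =>
      rcases ih with ⟨hb, hbz⟩ | h
      · by_cases hax : a = x
        · subst hax
          obtain ⟨i, hi⟩ := hab
          exact Or.inr ⟨i, b, hi, hbz⟩
        · exact Or.inl ⟨hax, hbz.head ⟨hab, hax, hb⟩⟩
      · exact Or.inr h
  rcases key x h with ⟨h1, -⟩ | h1
  · exact absurd rfl h1
  · exact h1

theorem rch_remove {m : ℕ} (E : Fin (m + 1) → V × V) (x z : V) (hxz : z ≠ x) (h : Rch E x z) :
    ∃ (i : Fin (m + 1)) (y : V), (E i = (x, y) ∨ E i = (y, x)) ∧ Rch (i.removeNth E) y z := by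
  obtain ⟨i, y, hi, hyz⟩ := rch_first E x z hxz h
  refine ⟨i, y, hi, ?_⟩
  refine Relation.ReflTransGen.mono ?_ _ _ hyz
  rintro a b ⟨⟨k, hk⟩, ha, hb⟩
  have hki : k ≠ i := by
    rintro rfl
    rcases hi with hi | hi <;> rcases hk with hk | hk <;> rw [hi] at hk <;>
      simp only [Prod.mk.injEq] at hk
    · exact ha hk.1.symm
    · exact hb hk.1.symm
    · exact hb hk.2.symm
    · exact ha hk.2.symm
  obtain ⟨k', hk'⟩ := Fin.exists_succAbove_eq hki
  refine ⟨k', ?_⟩
  show E (i.succAbove k') = _ ∨ E (i.succAbove k') = _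
  rw [hk']
  exact hk

/-- indicator -/
def ind (P : Prop) : ℝ := open Classical in if P then 1 else 0

theorem ind_nonneg (P : Prop) : 0 ≤ ind P := by unfold ind; split_ifs <;> norm_num

theorem cnt_eq (P : V → Prop) : cnt P = ∑ v, ind (P v) := rfl

theorem sum_ind {X : Type} [Fintype X] (x : X) (c : ℝ) : ∑ z : X, ind (z = x) * c = c := by
  rw [Finset.sum_eq_single x]
  · have : ind (x = x) = 1 := if_pos rfl
    rw [this, one_mul]
  · intro b _ hb
    have : ind (b = x) = 0 := if_neg hb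
    rw [this, zero_mul]
  · intro h; exact absurd (Finset.mem_univ x) h

theorem sum_ind1 {X : Type} [Fintype X] (x : X) : ∑ z : X, ind (z = x) = 1 := by
  have := sum_ind x 1
  simpa using this

theorem cnt_rch {m : ℕ} (E : Fin (m + 1) → V × V) (x : V) :
    cnt (Rch E x) ≤ 1 + ∑ i, ∑ y, (ind (E i = (x, y)) + ind (E i = (y, x))) *
      cnt (Rch (i.removeNth E) y) := by
  classical
  have h1 : ∀ z, ind (Rch E x z) ≤ ind (z = x) + ∑ i, ∑ y,
      (ind (E i = (x, y)) + ind (E i = (y, x))) * ind (Rch (i.removeNth E) y z) := by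
    intro z
    have hnn : ∀ i : Fin (m + 1), ∀ y : V, 0 ≤ (ind (E i = (x, y)) + ind (E i = (y, x))) *
        ind (Rch (i.removeNth E) y z) := fun i y =>
      mul_nonneg (add_nonneg (ind_nonneg _) (ind_nonneg _)) (ind_nonneg _)
    have hnn2 : 0 ≤ ∑ i, ∑ y, (ind (E i = (x, y)) + ind (E i = (y, x))) *
        ind (Rch (i.removeNth E) y z) :=
      Finset.sum_nonneg fun i _ => Finset.sum_nonneg fun y _ => hnn i y
    by_cases hz : z = x
    · have h2 : ind (z = x) = 1 := if_pos hz
      have h3 : ind (Rch E x z) ≤ 1 := by unfold ind; split_ifs <;> norm_num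
      linarith
    · by_cases hr : Rch E x z
      · obtain ⟨i, y, hi, hyz⟩ := rch_remove E x z hz hr
        have h2 : ind (Rch E x z) = 1 := if_pos hr
        have h4 : ind (z = x) = 0 := if_neg hz
        have h3 : 1 ≤ (ind (E i = (x, y)) + ind (E i = (y, x))) * ind (Rch (i.removeNth E) y z) := by
          have h5 : ind (Rch (i.removeNth E) y z) = 1 := if_pos hyz
          rw [h5, mul_one]
          rcases hi with hi | hi
          · have h6 : ind (E i = (x, y)) = 1 := if_pos hi
            have := ind_nonneg (E i = (y, x))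
            linarith
          · have h6 : ind (E i = (y, x)) = 1 := if_pos hi
            have := ind_nonneg (E i = (x, y))
            linarith
        have h7 := Finset.single_le_sum (f := fun y => (ind (E i = (x, y)) + ind (E i = (y, x))) *
          ind (Rch (i.removeNth E) y z)) (fun y _ => hnn i y) (Finset.mem_univ y)
        have h8 := Finset.single_le_sum (f := fun i => ∑ y, (ind (E i = (x, y)) +
          ind (E i = (y, x))) * ind (Rch (i.removeNth E) y z))
          (fun i _ => Finset.sum_nonneg fun y _ => hnn i y) (Finset.mem_univ i)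
        rw [h2, h4]
        linarith
      · have h2 : ind (Rch E x z) = 0 := if_neg hr
        have := ind_nonneg (z = x)
        rw [h2]
        linarith
  rw [cnt_eq]
  refine (Finset.sum_le_sum fun z _ => h1 z).trans ?_
  rw [Finset.sum_add_distrib]
  rw [sum_ind1]
  refine add_le_add_right (le_of_eq ?_) 1
  rw [Finset.sum_comm]
  refine Finset.sum_congr rfl fun i _ => ?_
  rw [Finset.sum_comm]
  refine Finset.sum_congr rfl fun y _ => ?_
  rw [cnt_eq, Finset.mul_sum]

/-! ### the number of cycles -/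

theorem PE_remove {m : ℕ} : ∀ (E : Fin (m + 1) → V × V) (i : Fin (m + 1)),
    ∃ u w : V, PE E = swap u w * PE (i.removeNth E) := by
  induction m with
  | zero =>
    intro E i
    have hi : i = 0 := Fin.ext (by have := i.2; simp only [Fin.val_zero]; omega)
    subst hi
    refine ⟨(E 0).1, (E 0).2, ?_⟩
    rw [PE_succ]
    rfl
  | succ m ih =>
    intro E i
    refine Fin.cases ?_ (fun i' => ?_) i
    · refine ⟨(E 0).1, (E 0).2, ?_⟩
      rw [PE_succ]
      rfl
    · obtain ⟨u, w, h⟩ := ih (Fin.tail E) i'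
      have h1 : Fin.tail ((i'.succ).removeNth E) = i'.removeNth (Fin.tail E) := by
        funext j
        show E (i'.succ.succAbove j.succ) = E ((i'.succAbove j).succ)
        rw [Fin.succ_succAbove_succ]
      have h2 : ((i'.succ).removeNth E) 0 = E 0 := by
        show E (i'.succ.succAbove 0) = E 0
        rw [Fin.succ_succAbove_zero]
      refine ⟨swap (E 0).1 (E 0).2 u, swap (E 0).1 (E 0).2 w, ?_⟩
      rw [PE_succ, h, PE_succ ((i'.succ).removeNth E), h1, h2, Equiv.swap_apply_apply]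
      group

theorem one_le_max {θ : ℝ} (hθ : 0 < θ) : 1 ≤ max θ θ⁻¹ := by
  rcases le_total 1 θ with h | h
  · exact h.trans (le_max_left _ _)
  · exact ((one_le_inv₀ hθ).2 h).trans (le_max_right _ _)

theorem cyc_bd {θ : ℝ} (hθ : 0 < θ) (g : Perm V) (u w : V) :
    θ ^ cyc (swap u w * g) ≤ max θ θ⁻¹ * θ ^ cyc g := by
  have hc := Pool.Agent.W646.LR.main_cyc Pool.Agent.W333.LR.main_merge
    Pool.Agent.W333.LR.main_split V g u w
  have hp : 0 < θ ^ cyc g := pow_pos hθ _
  by_cases huw : u = w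
  · rw [huw, swap_self]
    have : (Equiv.refl V : Perm V) * g = g := by ext v; rfl
    rw [this]
    have := one_le_max hθ
    nlinarith
  · by_cases hs : g.SameCycle u w
    · rw [hc.1 hs huw, pow_succ]
      have := le_max_left θ θ⁻¹
      nlinarith
    · rw [← hc.2 hs, pow_succ]
      have h1 := le_max_right θ θ⁻¹
      have h2 : 0 < θ ^ cyc (swap u w * g) := pow_pos hθ _
      calc θ ^ cyc (swap u w * g) = θ⁻¹ * (θ ^ cyc (swap u w * g) * θ) := by field_simp
        _ ≤ max θ θ⁻¹ * (θ ^ cyc (swap u w * g) * θ) := by gcongr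

theorem cyc_rem {θ : ℝ} (hθ : 0 < θ) {m : ℕ} (E : Fin (m + 1) → V × V) (i : Fin (m + 1)) :
    θ ^ cyc (PE E) ≤ max θ θ⁻¹ * θ ^ cyc (PE (i.removeNth E)) := by
  obtain ⟨u, w, h⟩ := PE_remove E i
  rw [h]
  exact cyc_bd hθ _ u w

/-! ### the recursion -/

/-- the partition function with `m` transpositions -/
def Zm (J : V → V → ℝ) (θ : ℝ) (m : ℕ) : ℝ :=
  ∑ E : Fin m → V × V, WE J E * θ ^ cyc (PE E)

/-- the same with the number of points reachable from `x` -/
def Am (J : V → V → ℝ) (θ : ℝ) (m : ℕ) (x : V) : ℝ :=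
  ∑ E : Fin m → V × V, WE J E * θ ^ cyc (PE E) * cnt (Rch E x)

theorem Zm_nonneg {J : V → V → ℝ} (hJ : ∀ x y, 0 ≤ J x y) {θ : ℝ} (hθ : 0 < θ) (m : ℕ) :
    0 ≤ Zm J θ m :=
  Finset.sum_nonneg fun E _ => mul_nonneg (WE_nonneg hJ E) (pow_nonneg hθ.le _)

theorem Am_nonneg {J : V → V → ℝ} (hJ : ∀ x y, 0 ≤ J x y) {θ : ℝ} (hθ : 0 < θ) (m : ℕ) (x : V) :
    0 ≤ Am J θ m x :=
  Finset.sum_nonneg fun E _ => mul_nonneg (mul_nonneg (WE_nonneg hJ E) (pow_nonneg hθ.le _))
    (cnt_nonneg _)

theorem Zm_le {J : V → V → ℝ} (hJ : ∀ x y, 0 ≤ J x y) {θ : ℝ} (hθ : 0 < θ) (m : ℕ) :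
    Zm J θ m ≤ (∑ g : Perm V, θ ^ cyc g) * Q J ^ m := by
  rw [← sum_WE, Finset.mul_sum]
  refine Finset.sum_le_sum fun E _ => ?_
  rw [mul_comm]
  refine mul_le_mul_of_nonneg_right ?_ (WE_nonneg hJ E)
  exact Finset.single_le_sum (f := fun g : Perm V => θ ^ cyc g) (fun g _ => pow_nonneg hθ.le _)
    (Finset.mem_univ _)

theorem Am_le {J : V → V → ℝ} (hJ : ∀ x y, 0 ≤ J x y) {θ : ℝ} (hθ : 0 < θ) (m : ℕ) (x : V) :
    Am J θ m x ≤ Fintype.card V * Zm J θ m := by
  unfold Am Zm
  rw [Finset.mul_sum]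
  refine Finset.sum_le_sum fun E _ => ?_
  rw [mul_comm]
  exact mul_le_mul_of_nonneg_right (cnt_le _) (mul_nonneg (WE_nonneg hJ E) (pow_nonneg hθ.le _))

theorem one_term {J : V → V → ℝ} (hJ : ∀ x y, 0 ≤ J x y) {θ : ℝ} (hθ : 0 < θ) (m : ℕ)
    (x y y' : V) (i : Fin (m + 1)) (p : V × V) :
    ∑ E : Fin (m + 1) → V × V, WE J E * θ ^ cyc (PE E) *
      (ind (E i = p) * cnt (Rch (i.removeNth E) y)) ≤
      J p.1 p.2 / 2 * max θ θ⁻¹ * Am J θ m y := by
  classical
  rw [← (Fin.insertNthEquiv (fun _ : Fin (m + 1) => V × V) i).sum_comp, Fintype.sum_prod_type]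
  have h1 : ∀ (e : V × V) (E : Fin m → V × V),
      WE J (Fin.insertNthEquiv (fun _ : Fin (m + 1) => V × V) i (e, E)) =
        J e.1 e.2 / 2 * WE J E := by
    intro e E
    unfold WE
    rw [Fin.prod_univ_succAbove _ i]
    simp
  have h2 : ∀ (e : V × V) (E : Fin m → V × V),
      (Fin.insertNthEquiv (fun _ : Fin (m + 1) => V × V) i (e, E)) i = e := by
    intro e E; simp
  have h3 : ∀ (e : V × V) (E : Fin m → V × V),
      i.removeNth (Fin.insertNthEquiv (fun _ : Fin (m + 1) => V × V) i (e, E)) = E := by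
    intro e E
    funext j
    show Fin.insertNth (α := fun _ : Fin (m + 1) => V × V) i e E (i.succAbove j) = E j
    rw [Fin.insertNth_apply_succAbove]
  have h4 : ∀ (e : V × V) (E : Fin m → V × V),
      θ ^ cyc (PE (Fin.insertNthEquiv (fun _ : Fin (m + 1) => V × V) i (e, E))) ≤
        max θ θ⁻¹ * θ ^ cyc (PE E) := by
    intro e E
    have := cyc_rem hθ (Fin.insertNthEquiv (fun _ : Fin (m + 1) => V × V) i (e, E)) i
    rwa [h3] at this
  calc _ ≤ ∑ e : V × V, ∑ E : Fin m → V × V, (J e.1 e.2 / 2 * WE J E) *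
        (max θ θ⁻¹ * θ ^ cyc (PE E)) * (ind (e = p) * cnt (Rch E y)) := by
        refine Finset.sum_le_sum fun e _ => Finset.sum_le_sum fun E _ => ?_
        rw [h1, h2, h3]
        refine mul_le_mul_of_nonneg_right ?_ (mul_nonneg (ind_nonneg _) (cnt_nonneg _))
        exact mul_le_mul_of_nonneg_left (h4 e E)
          (mul_nonneg (div_nonneg (hJ _ _) (by norm_num)) (WE_nonneg hJ E))
    _ = ∑ e : V × V, ind (e = p) * (J e.1 e.2 / 2 * max θ θ⁻¹ * Am J θ m y) := by
        refine Finset.sum_congr rfl fun e _ => ?_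
        unfold Am
        rw [Finset.mul_sum, Finset.mul_sum]
        exact Finset.sum_congr rfl fun E _ => by ring
    _ = J p.1 p.2 / 2 * max θ θ⁻¹ * Am J θ m y := by
        have : ∀ e : V × V, ind (e = p) * (J e.1 e.2 / 2 * max θ θ⁻¹ * Am J θ m y) =
            ind (e = p) * (J p.1 p.2 / 2 * max θ θ⁻¹ * Am J θ m y) := by
          intro e
          by_cases he : e = p
          · rw [he]
          · have : ind (e = p) = 0 := if_neg he
            rw [this, zero_mul, zero_mul]
        simp only [this]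
        exact sum_ind p _

theorem rec_ineq {J : V → V → ℝ} (hJ : ∀ x y, 0 ≤ J x y) (hsym : ∀ x y, J x y = J y x) {θ : ℝ}
    (hθ : 0 < θ) (m : ℕ) (x : V) :
    Am J θ (m + 1) x ≤ Zm J θ (m + 1) +
      ((m : ℝ) + 1) * (max θ θ⁻¹ * ∑ y, J x y * Am J θ m y) := by
  classical
  have h1 : Am J θ (m + 1) x ≤ ∑ E : Fin (m + 1) → V × V, WE J E * θ ^ cyc (PE E) *
      (1 + ∑ i, ∑ y, (ind (E i = (x, y)) + ind (E i = (y, x))) * cnt (Rch (i.removeNth E) y)) := by
    refine Finset.sum_le_sum fun E _ => ?_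
    exact mul_le_mul_of_nonneg_left (cnt_rch E x)
      (mul_nonneg (WE_nonneg hJ E) (pow_nonneg hθ.le _))
  refine h1.trans ?_
  simp only [mul_add, mul_one, Finset.sum_add_distrib]
  refine add_le_add le_rfl ?_
  have h2 : ∑ E : Fin (m + 1) → V × V, WE J E * θ ^ cyc (PE E) *
      ∑ i, ∑ y, (ind (E i = (x, y)) + ind (E i = (y, x))) * cnt (Rch (i.removeNth E) y) =
      ∑ i : Fin (m + 1), ∑ y, ((∑ E : Fin (m + 1) → V × V, WE J E * θ ^ cyc (PE E) *
        (ind (E i = (x, y)) * cnt (Rch (i.removeNth E) y))) +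
        ∑ E : Fin (m + 1) → V × V, WE J E * θ ^ cyc (PE E) *
        (ind (E i = (y, x)) * cnt (Rch (i.removeNth E) y))) := by
    simp only [Finset.mul_sum]
    rw [Finset.sum_comm]
    refine Finset.sum_congr rfl fun i _ => ?_
    rw [Finset.sum_comm]
    refine Finset.sum_congr rfl fun y _ => ?_
    rw [← Finset.sum_add_distrib]
    exact Finset.sum_congr rfl fun E _ => by ring
  rw [h2]
  calc _ ≤ ∑ i : Fin (m + 1), ∑ y, (J x y / 2 * max θ θ⁻¹ * Am J θ m y +
        J y x / 2 * max θ θ⁻¹ * Am J θ m y) := by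
        refine Finset.sum_le_sum fun i _ => Finset.sum_le_sum fun y _ => ?_
        exact add_le_add (one_term hJ hθ m x y y i (x, y)) (one_term hJ hθ m x y y i (y, x))
    _ = ((m : ℝ) + 1) * (max θ θ⁻¹ * ∑ y, J x y * Am J θ m y) := by
        rw [Finset.sum_const, Finset.card_univ, Fintype.card_fin, nsmul_eq_mul]
        push_cast
        congr 1
        rw [Finset.mul_sum]
        refine Finset.sum_congr rfl fun y _ => ?_
        rw [hsym y x]
        ring

theorem main : S_small := by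
  classical
  intro V _ _ J t θ S hJ hsym hdiag hS ht hθ hlt
  set Θ := max θ θ⁻¹ with hΘ
  have hΘ1 : 1 ≤ Θ := one_le_max hθ
  have hQ0 : 0 ≤ Q J := Finset.sum_nonneg fun e _ => div_nonneg (hJ _ _) (by norm_num)
  set CC : ℝ := ∑ g : Perm V, θ ^ cyc g with hCC
  have hsZ : Summable fun m : ℕ => t ^ m / (m.factorial : ℝ) * Zm J θ m :=
    summ hJ t ht _ CC (Zm_nonneg hJ hθ) (Zm_le hJ hθ)
  have hsA : ∀ x, Summable fun m : ℕ => t ^ m / (m.factorial : ℝ) * Am J θ m x := fun x =>
    summ hJ t ht _ (Fintype.card V * CC) (fun m => Am_nonneg hJ hθ m x) (fun m => by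
      refine (Am_le hJ hθ m x).trans ?_
      rw [mul_assoc]
      exact mul_le_mul_of_nonneg_left (Zm_le hJ hθ m) (Nat.cast_nonneg _))
  set z : ℝ := ∑' m : ℕ, t ^ m / (m.factorial : ℝ) * Zm J θ m with hz
  set a : V → ℝ := fun x => ∑' m : ℕ, t ^ m / (m.factorial : ℝ) * Am J θ m x with ha
  have ha0 : ∀ x, 0 ≤ a x := fun x => tsum_nonneg fun m =>
    mul_nonneg (by positivity) (Am_nonneg hJ hθ m x)
  have hrec : ∀ x, a x ≤ z + t * Θ * ∑ y, J x y * a y := by
    intro x
    have e1 : a x = Am J θ 0 x + ∑' m : ℕ, t ^ (m + 1) / ((m + 1).factorial : ℝ) *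
        Am J θ (m + 1) x := by
      rw [ha]
      simp only
      rw [(hsA x).tsum_eq_zero_add]
      simp
    have e2 : z = Zm J θ 0 + ∑' m : ℕ, t ^ (m + 1) / ((m + 1).factorial : ℝ) *
        Zm J θ (m + 1) := by
      rw [hz, hsZ.tsum_eq_zero_add]
      simp
    have e3 : Am J θ 0 x ≤ Zm J θ 0 := by
      unfold Am Zm
      refine Finset.sum_le_sum fun E _ => ?_
      have h1 : cnt (Rch E x) ≤ 1 := by
        rw [cnt_eq]
        have : ∀ w, ind (Rch E x w) ≤ ind (w = x) := by
          intro w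
          unfold ind
          by_cases hw : w = x
          · rw [if_pos hw]; split_ifs <;> norm_num
          · rw [if_neg hw, if_neg]
            intro h
            rcases Relation.ReflTransGen.cases_head h with h | ⟨b, ⟨i, -⟩, -⟩
            · exact hw h.symm
            · exact i.elim0
        refine (Finset.sum_le_sum fun w _ => this w).trans ?_
        rw [sum_ind1]
      have h2 : 0 ≤ WE J E * θ ^ cyc (PE E) := mul_nonneg (WE_nonneg hJ E) (pow_nonneg hθ.le _)
      nlinarith
    have hs1 : Summable fun m : ℕ => t ^ (m + 1) / ((m + 1).factorial : ℝ) * Am J θ (m + 1) x :=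
      (summable_nat_add_iff 1).2 (hsA x)
    have hs2 : Summable fun m : ℕ => t ^ (m + 1) / ((m + 1).factorial : ℝ) * Zm J θ (m + 1) :=
      (summable_nat_add_iff 1).2 hsZ
    have hs3 : Summable fun m : ℕ => t * Θ * ∑ y, J x y *
        (t ^ m / (m.factorial : ℝ) * Am J θ m y) := by
      refine Summable.mul_left _ ?_
      exact summable_sum fun y _ => (hsA y).mul_left _
    have e4 : ∑' m : ℕ, t ^ (m + 1) / ((m + 1).factorial : ℝ) * Am J θ (m + 1) x ≤
        ∑' m : ℕ, (t ^ (m + 1) / ((m + 1).factorial : ℝ) * Zm J θ (m + 1) +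
          t * Θ * ∑ y, J x y * (t ^ m / (m.factorial : ℝ) * Am J θ m y)) := by
      refine hs1.tsum_le_tsum (fun m => ?_) (hs2.add hs3)
      have h1 := rec_ineq hJ hsym hθ m x
      have h2 : 0 ≤ t ^ (m + 1) / ((m + 1).factorial : ℝ) := by positivity
      have h3 := mul_le_mul_of_nonneg_left h1 h2
      refine h3.trans (le_of_eq ?_)
      rw [mul_add]
      congr 1
      have h4 : t ^ (m + 1) / ((m + 1).factorial : ℝ) * (((m : ℝ) + 1) *
          (Θ * ∑ y, J x y * Am J θ m y)) = t * Θ * (t ^ m / (m.factorial : ℝ) *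
            ∑ y, J x y * Am J θ m y) := by
        rw [Nat.factorial_succ]
        push_cast
        have : (m.factorial : ℝ) ≠ 0 := by positivity
        have h5 : ((m : ℝ) + 1) ≠ 0 := by positivity
        field_simp
        ring
      rw [h4, Finset.mul_sum]
      congr 1
      exact Finset.sum_congr rfl fun y _ => by ring
    rw [hs2.tsum_add hs3, tsum_mul_left, Summable.tsum_finsetSum
      (fun y _ => (hsA y).mul_left _)] at e4
    simp only [tsum_mul_left] at e4
    rw [e1, e2]
    have e5 : ∑ y, J x y * ∑' m : ℕ, t ^ m / (m.factorial : ℝ) * Am J θ m y =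
        ∑ y, J x y * a y := rfl
    rw [e5] at e4
    linarith
  have hz0 : 0 ≤ z := tsum_nonneg fun m => mul_nonneg (by positivity) (Zm_nonneg hJ hθ m)
  have hpos : 0 < 1 - Θ * t * S := by linarith
  have hbd : ∀ x, a x ≤ z / (1 - Θ * t * S) := by
    intro x
    obtain ⟨x0, -, hx0⟩ := Finset.exists_max_image Finset.univ a ⟨x, Finset.mem_univ x⟩
    refine (hx0 x (Finset.mem_univ x)).trans ?_
    rw [le_div_iff₀ hpos]
    have h1 := hrec x0
    have h2 : ∑ y, J x0 y * a y ≤ S * a x0 := by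
      calc _ ≤ ∑ y, J x0 y * a x0 := Finset.sum_le_sum fun y _ =>
            mul_le_mul_of_nonneg_left (hx0 y (Finset.mem_univ y)) (hJ _ _)
        _ = (∑ y, J x0 y) * a x0 := by rw [Finset.sum_mul]
        _ ≤ S * a x0 := mul_le_mul_of_nonneg_right (hS x0) (ha0 x0)
    have h3 : t * Θ * ∑ y, J x0 y * a y ≤ t * Θ * (S * a x0) :=
      mul_le_mul_of_nonneg_left h2 (mul_nonneg ht (by linarith))
    nlinarith
  have hZ : ∑ g, stirMass J t g * θ ^ cyc g = z := by
    rw [sum_stir hJ t ht]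
    rfl
  have hL : ∑ g, stirMass J t g * θ ^ cyc g * (∑ x, len g x) ≤ ∑ x, a x := by
    have h1 : ∑ g, stirMass J t g * θ ^ cyc g * (∑ x, len g x) =
        ∑ g, stirMass J t g * (θ ^ cyc g * (∑ x, len g x)) :=
      Finset.sum_congr rfl fun g _ => by ring
    rw [h1, sum_stir hJ t ht, ha]
    simp only
    rw [← Summable.tsum_finsetSum (fun x _ => hsA x)]
    have hterm : ∀ m : ℕ, t ^ m / (m.factorial : ℝ) * ∑ E : Fin m → V × V, WE J E *
        (θ ^ cyc (PE E) * ∑ x, len (PE E) x) ≤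
        ∑ x, t ^ m / (m.factorial : ℝ) * Am J θ m x := by
      intro m
      rw [← Finset.mul_sum]
      refine mul_le_mul_of_nonneg_left ?_ (by positivity)
      unfold Am
      rw [Finset.sum_comm]
      refine Finset.sum_le_sum fun E _ => ?_
      rw [← Finset.mul_sum, ← mul_assoc]
      refine mul_le_mul_of_nonneg_left ?_ (mul_nonneg (WE_nonneg hJ E) (pow_nonneg hθ.le _))
      exact Finset.sum_le_sum fun x _ => len_le E x
    have hsum : Summable fun m : ℕ => ∑ x, t ^ m / (m.factorial : ℝ) * Am J θ m x :=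
      summable_sum fun x _ => hsA x
    refine Summable.tsum_le_tsum hterm ?_ hsum
    refine Summable.of_nonneg_of_le (fun m => ?_) hterm hsum
    refine mul_nonneg (by positivity) (Finset.sum_nonneg fun E _ => ?_)
    refine mul_nonneg (WE_nonneg hJ E) (mul_nonneg (pow_nonneg hθ.le _)
      (Finset.sum_nonneg fun x _ => ?_))
    exact cnt_nonneg _
  rw [hZ]
  refine hL.trans ((Finset.sum_le_sum fun x _ => hbd x).trans (le_of_eq ?_))
  rw [Finset.sum_const, Finset.card_univ, nsmul_eq_mul]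
  ring

end

end Pool.Agent.W349.LR.SM
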